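import Mathlib
import Pool.Agent.Helper503_BS.Comp

/-!
# The rank conjecture over composita of Galois extensions

Let `E` be an elliptic curve over a number field `K`, and let `F` be the compositum of linearly
disjoint finite Galois extensions `F_i` of `K`, `i ∈ ι`, with arbitrary Galois groups `H i`. For
`J ⊆ ι` let `F_J` be the compositum of the fields `F_i`, `i ∈ J`, and of the maximal abelian
subextensions `F_i^ab` of the other `F_i`. We show that the rank conjecture over all intermediate
fields `M` of `F/K` follows from the rank conjecture over the fields `M ∩ F_J` with
`2 ^ |J| ≤ max(r, R)`, where `r = ord_{s=1} L(E/F, s)` and `R = rk E(F)`. So if the ranks over `F` are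
not large, only composita of very few (at most `log_2 max(r, R)`) nonabelian extensions have to be
considered. If `r, R ≤ 1`, for example, the conjecture over `M` follows from the conjecture over the
maximal abelian subextension `M ∩ F^ab`; if `r, R ≤ 3`, from the conjecture over the fields
`M ∩ F_i F^ab`.

More generally, `F/K` may be any Galois extension whose group `G` is generated by pairwise commuting
subgroups `H i` (a central product). `outer H J` is the subgroup generated by the commutator
subgroups of the `H i` with `i ∉ J`, its fixed field is `F_J`. If the groups `H i` have weights `w i`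
(`Weight (w i) (H i)`, always true for `w i = 2`), then it is enough to consider those `J` with
`2 ^ |J| * w i ≤ 2 * max(r, R)` for all `i ∈ J`. A group `X` has weight `w` if `w ≤ 2`, or if it is a
quotient of a group of the list `FacO (w - 1)` of the starting files, for example `SL_n(q)` for odd
`q` and `n ≥ max(w, 3)`, or if every Heilbronn function on `X` of degree less than `w` is constant on
the commutator subgroup of `X`.

The hypotheses on the L-functions are the ones of `Pool.Agent.H541R3.ART.ArtinData G 1`: functions
`L χ` for the irreducible characters `χ` of `G`, the twisted L-functions `L(E/K, χ, s)`, and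
`Lin H ψ` for the linear characters `ψ` of the subgroups `H`, the L-functions `L(E/M, ψ, s)` over the
fixed field `M` of `H`, such that `L χ` is meromorphic and not identically zero near `s = 1`, `Lin H ψ`
has no pole at `s = 1`, and `Lin H ψ` is the product of the `L χ ^ ⟨χ|_H, ψ⟩` near `s = 1`. For
elliptic curves with complex multiplication this is known for all `F/K` (Deuring, Hecke). Artin's
conjecture for the `L(E/K, χ, s)` is not assumed. `P` is the finitely generated group `E(F)` with its
action of `G`.

Proof. By the lower bound `2 ^ (k - 1) * μ` for the degrees of Heilbronn functions on central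
products (see `Pool.Agent.Results.MP_148101_nt.CentralProducts`), the characters `χ` which are not
trivial on the commutator subgroups of the `H i`, `i ∈ T`, do not contribute to the two ranks if `T`
is not small. The two ranks over `M ∩ F_J` are sums over the subsets `T` of `J` of the contributions
of the characters `χ` whose set of nonlinear components is `T`, and one can use inversion.
-/

set_option autoImplicit false

open Pool.Agent.H541R3.ART Pool.Agent.Helper503_CP Pool.Agent.Helper503_BS

/-- Let `L(E/F, s)` have order `r` at `s = 1`, let `R` be the rank of `P = E(F)`, `r ≤ m`, `R ≤ m`,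
and let `G` be generated by the pairwise commuting subgroups `H i` of weights `w i`. Let `U` be any
subgroup of `G`, with fixed field `M`. If the rank conjecture holds over the fields `M ∩ F_J` for all
`J` with `2 ^ |J| * w i ≤ 2 * m` for all `i ∈ J`, then it holds over `M`. -/
theorem Pool.Agent.Results.MP_cd906c_nt.Composita.result
    (G : Type) [Group G] [Finite G] (A : ArtinData G 1)
    (P : Type) [AddCommGroup P] [DistribMulAction G P] [Module.Finite ℤ P] (r R m : ℕ)
    (hr : meromorphicOrderAt (A.Lin ⊥ 1) 1 = (r : WithTop ℤ)) (hR : Module.finrank ℤ P = R)
    (hrm : r ≤ m) (hRm : R ≤ m)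
    (ι : Type) [Fintype ι] (H : ι → Subgroup G)
    (hc : ∀ i j, i ≠ j → ∀ a ∈ H i, ∀ b ∈ H j, a * b = b * a) (hH : ⨆ i, H i = ⊤)
    (w : ι → ℕ) (hw : ∀ i, Weight (w i) (H i)) (U : Subgroup G)
    (hsmall : ∀ J : Finset ι, (∀ i ∈ J, 2 ^ J.card * w i ≤ 2 * m) → BSD A P (U ⊔ outer H J)) :
    BSD A P U :=
  compositum A P hr hR hrm hRm hc hH w hw U hsmall
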