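import Pool.Agent.H424.BY.EC

/-!
# The rank conjecture over number fields and the Riemann hypothesis from the original products, with
# exceptional cut-offs

Let `K` be a number field and `E : y² = x³ + a x + b` an elliptic curve over `K`, `a, b` in the ring of integers. For
the primes `v` of `K` which do not divide `6 (4a³ + 27b²)` let `N_v` be the number of affine points modulo `v`, `q_v` the
norm of `v`, and let

`P(n) = ∏_{q_v ≤ n} (N_v + 1)/q_v`

be the products, with the sharp cut-off, from which Birch and Swinnerton-Dyer were led to their conjecture. Let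
`F` be an entire continuation of the (incomplete) `L`-series, which grows at most like a power of `|s|` in some
half-plane `Re s > 1 - η` (every continuation with the functional equation conjectured by Hasse and Weil does).
Over `ℚ` Goldfeld proved that `P(n) ∼ A (log n)^ρ` for ALL `n` implies that `F` has no zeros with `Re s > 1` and
`ρ = ord_{s=1} F`. Here exceptional cut-offs are admitted, the field is arbitrary, and the result is an equivalence.
For every real number `ρ` the following are equivalent:

1. `F` has no zeros with `Re s > 1` (the Riemann hypothesis for `E`) and `ρ = ord_{s=1} F`;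
2. for every `ε > 0` there is a `δ > 0` such that for all large `M` all but `M^(1-δ)` of the cut-offs `n ≤ M` satisfy
   `|log P(n)| ≤ n^ε`; and for every `ε > 0` the set of the `n` with `|log P(n) - ρ log log n| > ε log log n` has a
   finite logarithmic measure `∑ 1/n`;
3. for every `ε > 0` there is a `δ > 0` such that for INFINITELY MANY `M` all but `M^(1-δ)` of the cut-offs `n ≤ M`
   satisfy `log P(n) ≤ n^ε`; and for every `ε > 0` the set of the `n` with
   `|log P(n) - ρ log log n| ≤ ε log log n` has a positive UPPER logarithmic density.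

In particular, with `ρ = rank E(K)`, the rank form of the conjecture together with the Riemann hypothesis for `E` is
equivalent to 2 and to 3. The first condition in 3 cannot fail by little: if `F` has a zero with `Re s > 1`, there is
an `ε > 0` such that for every `δ > 0` and all large `M` at least `M^(1-δ)` of the `n ≤ M` satisfy `log P(n) > n^ε`.

Nothing is assumed besides the continuation: Hasse's bound for the curves over the residue fields is proved in the
starting files.

Proof. (`Pool.Agent.H424.BX`, `Pool.Agent.H424.BY`, the latter for arbitrary systems of primes.) Let `b` be the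
supremum of the real parts of the zeros of `F(1 + s)`, `b > 0`. The explicit formula with Gaussian weights
(`Pool.Agent.TH949.TX`), used at a real point slightly below `b` and at a complex one, shows that the Gaussian means
of the positive part of `log P(e^u) e^{-σu}` are large at every scale, `σ` near `b`. By Plancherel's theorem
(`Pool.Agent.TH270.MS`) and the growth of `F`, `log P(e^u) e^{-xu}` is square integrable for `x > b`. By Cauchy's
inequality the set of the large values cannot be small. If there are no zeros, the second fact gives the first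
condition in 2; the second one follows from the mean square law (helper270). The products over the primes and over
the prime powers with norm `≤ n` differ by a bounded factor, by Chebyshev's bound for the primes of `K`.
-/

set_option autoImplicit false

namespace Pool.Agent.Results.MP_cd906c_nt.RankWithExceptions

open NumberField IsDedekindDomain Filter Topology Classical

section defs

variable {K : Type} [Field K] [NumberField K]

/-- The prime `v` does not divide `6 (4a³ + 27b²)`. -/
def Good (a b : 𝓞 K) (v : HeightOneSpectrum (𝓞 K)) : Prop :=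
  6 * (4 * a ^ 3 + 27 * b ^ 2) ∉ v.asIdeal

/-- `N_v`: the number of pairs `(x, y)` in the residue field of `v` with `y² = x³ + a x + b`. -/
noncomputable def points (a b : 𝓞 K) (v : HeightOneSpectrum (𝓞 K)) : ℕ :=
  Nat.card {P : (𝓞 K ⧸ v.asIdeal) × (𝓞 K ⧸ v.asIdeal) //
    P.2 ^ 2 = P.1 ^ 3 + Ideal.Quotient.mk v.asIdeal a * P.1 + Ideal.Quotient.mk v.asIdeal b}

/-- `P(n)`: the product of `(N_v + 1) / q_v` over the good primes `v` with `q_v ≤ n`. -/
noncomputable def P (a b : 𝓞 K) (n : ℕ) : ℝ :=
  ∏ᶠ (v : HeightOneSpectrum (𝓞 K)) (_ : Good a b v ∧ Ideal.absNorm v.asIdeal ≤ n),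
    (((points a b v : ℝ) + 1) / Ideal.absNorm v.asIdeal)

/-- The `L`-series without the factors at the divisors of `6 (4a³ + 27b²)`: the product of the
`(1 - a_v q_v^{-s} + q_v^{1-2s})⁻¹`, `a_v = q_v - N_v`, over the good primes. -/
noncomputable def LSer (a b : 𝓞 K) (s : ℂ) : ℂ :=
  ∏' v : {v : HeightOneSpectrum (𝓞 K) // Good a b v},
    (1 - ((Ideal.absNorm v.1.asIdeal : ℂ) - points a b v.1) * (Ideal.absNorm v.1.asIdeal : ℂ) ^ (-s) +
      (Ideal.absNorm v.1.asIdeal : ℂ) ^ (1 - 2 * s))⁻¹

/-- `F` is an entire function, equal to the `L`-series for `Re s > 3/2`, which grows at most like a power of `|s|` in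
some half-plane `Re s > 1 - η`, `η > 0`. -/
structure IsContinuation (a b : 𝓞 K) (F : ℂ → ℂ) : Prop where
  entire : Differentiable ℂ F
  eq : ∀ s : ℂ, 3 / 2 < s.re → F s = LSer a b s
  growth : ∃ (η C : ℝ) (κ : ℕ), 0 < η ∧ ∀ s : ℂ, 1 - η < s.re → ‖F s‖ ≤ C * (1 + ‖s‖) ^ κ

/-- `F` has no zeros with `Re s > 1`. -/
def NoZeros (F : ℂ → ℂ) : Prop := ∀ s : ℂ, 1 < s.re → F s ≠ 0

/-- The number of the elements `n` of `S` with `1 ≤ n ≤ M`. -/
noncomputable def count (S : Set ℕ) (M : ℕ) : ℕ := {n : ℕ | 1 ≤ n ∧ n ≤ M ∧ n ∈ S}.ncard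

/-- The sum of the `1/n` over the elements `n` of `S` with `1 ≤ n ≤ M`. -/
noncomputable def logSum (S : Set ℕ) (M : ℕ) : ℝ := ∑ n ∈ (Finset.Icc 1 M).filter (· ∈ S), (1 : ℝ) / n

/-- For every `ε > 0` there is a `δ > 0` such that for all large `M` the inequality `|log P(n)| > n^ε` holds for at
most `M^(1-δ)` of the numbers `n ≤ M`. -/
def FewExceptions (a b : 𝓞 K) : Prop := ∀ ε : ℝ, 0 < ε → ∃ δ : ℝ, 0 < δ ∧ ∀ᶠ M : ℕ in atTop,
  (count {n : ℕ | (n : ℝ) ^ ε < |Real.log (P a b n)|} M : ℝ) ≤ (M : ℝ) ^ (1 - δ)

/-- For every `ε > 0` there is a `δ > 0` such that for infinitely many `M` the inequality `log P(n) > n^ε` holds for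
at most `M^(1-δ)` of the numbers `n ≤ M`. -/
def SometimesFewLarge (a b : 𝓞 K) : Prop := ∀ ε : ℝ, 0 < ε → ∃ δ : ℝ, 0 < δ ∧ ∃ᶠ M : ℕ in atTop,
  (count {n : ℕ | (n : ℝ) ^ ε < Real.log (P a b n)} M : ℝ) ≤ (M : ℝ) ^ (1 - δ)

/-- For every `ε > 0` the inequality `|log P(n) - ρ log log n| ≤ ε log log n` holds for all `n` outside a set of
finite logarithmic measure. -/
def AlmostAlways (a b : 𝓞 K) (ρ : ℝ) : Prop := ∀ ε : ℝ, 0 < ε → Summable fun n : ℕ =>
  if ε * Real.log (Real.log n) < |Real.log (P a b n) - ρ * Real.log (Real.log n)| then (1 : ℝ) / n else 0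

/-- For every `ε > 0` the inequality `|log P(n) - ρ log log n| ≤ ε log log n` holds for all `n` in a set of positive
upper logarithmic density. -/
def OnPositiveDensity (a b : 𝓞 K) (ρ : ℝ) : Prop := ∀ ε : ℝ, 0 < ε → ∃ η : ℝ, 0 < η ∧ ∃ᶠ M : ℕ in atTop,
  η * Real.log M ≤
    logSum {n : ℕ | |Real.log (P a b n) - ρ * Real.log (Real.log n)| ≤ ε * Real.log (Real.log n)} M

/-- The rank of the group of the `K`-rational points of `y² = x³ + a x + b`. -/
noncomputable def rank (a b : 𝓞 K) : ℕ :=
  Module.finrank ℤ
    (WeierstrassCurve.Affine.Point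
      (WeierstrassCurve.toAffine
        ({ a₁ := 0, a₂ := 0, a₃ := 0, a₄ := (a : K), a₆ := (b : K) } : WeierstrassCurve K)))

end defs

/-! ### Translation -/

section translation

variable {K : Type} [Field K] [NumberField K] {a b : 𝓞 K}

theorem P_eq (n : ℕ) : P a b n = ∏ᶠ (v : HeightOneSpectrum (𝓞 K))
    (_ : Pool.Agent.TH942.ES.GoodV a b v ∧ Pool.Agent.H921R2.TatePole.nm v ≤ n),
    (((Pool.Agent.TH942.ES.ptsV a b v : ℝ) + 1) / Pool.Agent.H921R2.TatePole.nm v) := rfl

theorem ct {F : ℂ → ℂ} (hF : IsContinuation a b F) : Pool.Agent.H424.BY.CtV a b F where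
  entire := hF.entire
  eq := hF.eq
  growth := hF.growth

theorem noZeros_iff {F : ℂ → ℂ} : NoZeros F ↔ Pool.Agent.H424.BY.NZ (fun s => F (1 + s)) := by
  unfold NoZeros Pool.Agent.H424.BY.NZ
  constructor
  · intro h s hs
    exact h (1 + s) (by
      rw [Complex.add_re, Complex.one_re]
      linarith)
  · intro h s hs
    have h1 : F (1 + (s - 1)) ≠ 0 := h (s - 1) (by
      rw [Complex.sub_re, Complex.one_re]
      linarith)
    rwa [add_sub_cancel] at h1

end translation

/-- **The rank and the Riemann hypothesis from the products with exceptional cut-offs, over number fields.** -/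
theorem result (K : Type) [Field K] [NumberField K] (a b : 𝓞 K) (_hΔ : 4 * a ^ 3 + 27 * b ^ 2 ≠ 0)
    (F : ℂ → ℂ) (hF : IsContinuation a b F) :
    (∀ ρ : ℝ, List.TFAE [
      NoZeros F ∧ ∃ m : ℕ, ρ = m ∧ analyticOrderAt F 1 = m,
      FewExceptions a b ∧ AlmostAlways a b ρ,
      SometimesFewLarge a b ∧ OnPositiveDensity a b ρ]) ∧
    List.TFAE [
      NoZeros F ∧ analyticOrderAt F 1 = rank a b,
      FewExceptions a b ∧ AlmostAlways a b (rank a b),
      SometimesFewLarge a b ∧ OnPositiveDensity a b (rank a b)] ∧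
    (¬ NoZeros F → ∃ ε : ℝ, 0 < ε ∧ ∀ δ : ℝ, 0 < δ → ∀ᶠ M : ℕ in atTop,
      (M : ℝ) ^ (1 - δ) ≤ count {n : ℕ | (n : ℝ) ^ ε < Real.log (P a b n)} M) := by
  have H := (ct hF).ex
  obtain ⟨B, hB⟩ := Pool.Agent.H424.BY.log_near a b
  have key : ∀ ρ : ℝ, List.TFAE [
      NoZeros F ∧ ∃ m : ℕ, ρ = m ∧ analyticOrderAt F 1 = m,
      FewExceptions a b ∧ AlmostAlways a b ρ,
      SometimesFewLarge a b ∧ OnPositiveDensity a b ρ] := by
    intro ρ
    have h := Pool.Agent.H424.BY.crit H (f := fun n => Real.log (P a b n)) hB ρ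
    rw [Pool.Agent.H424.BY.order_shift F 1, ← noZeros_iff] at h
    exact h
  refine ⟨key, ?_, ?_⟩
  · have h := key (rank a b)
    have e : (NoZeros F ∧ ∃ m : ℕ, ((rank a b : ℕ) : ℝ) = m ∧ analyticOrderAt F 1 = m) ↔
        (NoZeros F ∧ analyticOrderAt F 1 = rank a b) := by
      refine and_congr Iff.rfl ⟨?_, fun h => ⟨_, rfl, h⟩⟩
      rintro ⟨m, h1, h2⟩
      have h3 : rank a b = m := by exact_mod_cast h1
      rw [h3]
      exact h2
    rw [← e]
    exact h
  · intro hnz
    unfold NoZeros at hnz
    push Not at hnz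
    obtain ⟨s, hs, h0⟩ := hnz
    refine ⟨(s.re - 1) / 2, by linarith, fun δ hδ => ?_⟩
    have h1 := Pool.Agent.H424.BY.up_count H (f := fun n => Real.log (P a b n)) hB (c := (s.re - 1) / 2)
      (by linarith) (ρ := s - 1) (by
        rw [Complex.sub_re, Complex.one_re]
        linarith) (by
        show F (1 + (s - 1)) = 0
        rwa [add_sub_cancel]) hδ 1
    simp only [one_mul] at h1
    exact h1

end Pool.Agent.Results.MP_cd906c_nt.RankWithExceptions
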